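import Pool.Agent.Results.MP_53fdf7_co.KOrbit

set_option autoImplicit false

/-!
# Infinitely many `k`-orbit `n`-polytopes with prescribed two-faces

For all `k ≥ 1`, `n ≥ 3` and `m ≥ 2` there are infinitely many finite `k`-orbit `n`-polytopes
without digonal sections all of whose faces of rank two are `2m`-gons.

The construction of the starting file `KOrbit` is used with other groups and other colourings:
the group `W` is generated by the involutions `v ↦ e_x - v` of `(ℤ/m)^X`, one for every colour
`x`; the product of two different generators has order `m`. In rank three the polygon has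
`k l` vertices and the vertices with index divisible by `k` have the same colour.
-/

namespace Pool.Agent.Results.MP_53fdf7_co.PrescribedFaces

open Pool.Agent.Results.MP_53fdf7_co.KOrbit

/-- All faces of rank two are polygons with `p` vertices. -/
def TwoFaces {P : Type} [PartialOrder P] (rk : P → ℤ) (p : ℕ) : Prop :=
  ∀ F, rk F = 2 → {v | v ≤ F ∧ rk v = 0}.ncard = p

/-! ### The groups -/

section grp

variable (m : ℕ) {X : Type}

open Classical in
/-- the basis vector -/
noncomputable def bs (x : X) : X → ZMod m := fun y => if y = x then 1 else 0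

/-- translations -/
def tr (a : X → ZMod m) : Equiv.Perm (X → ZMod m) where
  toFun v := a + v
  invFun v := -a + v
  left_inv v := by simp
  right_inv v := by simp

/-- point reflections -/
def rf (a : X → ZMod m) : Equiv.Perm (X → ZMod m) where
  toFun v := a - v
  invFun v := a - v
  left_inv v := by simp
  right_inv v := by simp

theorem tr_tr (a b : X → ZMod m) : tr m a * tr m b = tr m (a + b) := by
  ext1 v; show a + (b + v) = a + b + v; abel
theorem tr_rf (a b : X → ZMod m) : tr m a * rf m b = rf m (a + b) := by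
  ext1 v; show a + (b - v) = a + b - v; abel
theorem rf_tr (a b : X → ZMod m) : rf m a * tr m b = rf m (a - b) := by
  ext1 v; show a - (b + v) = a - b - v; abel
theorem rf_rf (a b : X → ZMod m) : rf m a * rf m b = tr m (a - b) := by
  ext1 v; show a - (b - v) = a - b + v; abel
theorem tr_zero : tr m (0 : X → ZMod m) = 1 := by
  ext1 v; show 0 + v = v; abel
theorem tr_inj {a b : X → ZMod m} (h : tr m a = tr m b) : a = b := by
  have h1 := congrArg (fun g : Equiv.Perm (X → ZMod m) => g 0) h
  have h2 : a + 0 = b + 0 := h1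
  simpa using h2
theorem rf_inj {a b : X → ZMod m} (h : rf m a = rf m b) : a = b := by
  have h1 := congrArg (fun g : Equiv.Perm (X → ZMod m) => g 0) h
  have h2 : a - 0 = b - 0 := h1
  simpa using h2
theorem tr_eq_rf {a b : X → ZMod m} (h : tr m a = rf m b) : a = b := by
  have h1 := congrArg (fun g : Equiv.Perm (X → ZMod m) => g 0) h
  have h2 : a + 0 = b - 0 := h1
  simpa using h2
theorem tr_pow (a : X → ZMod m) (j : ℕ) : (tr m a) ^ j = tr m (j • a) := by
  induction j with
  | zero => rw [pow_zero, zero_smul, tr_zero]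
  | succ j ih => rw [pow_succ, ih, tr_tr, succ_nsmul]

/-- The generalised dihedral group. -/
def Dg (X : Type) : Subgroup (Equiv.Perm (X → ZMod m)) :=
  Subgroup.closure (Set.range fun x : X => rf m (bs m x))

/-- The generators. -/
noncomputable def gx (x : X) : Dg m X := ⟨rf m (bs m x), Subgroup.subset_closure ⟨x, rfl⟩⟩

theorem one_ne {m : ℕ} (hm : 2 ≤ m) : (1 : ZMod m) ≠ 0 := by
  have : Fact (1 < m) := ⟨hm⟩
  exact one_ne_zero

theorem bs_inj (hm : 2 ≤ m) {x y : X} (h : bs m x = bs m y) : x = y := by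
  by_contra hne
  have h1 := congrFun h x
  simp only [bs, if_true] at h1
  rw [if_neg hne] at h1
  exact one_ne hm h1

theorem bs_ne_zero (hm : 2 ≤ m) (x : X) : bs m x ≠ 0 := by
  intro h
  have h1 := congrFun h x
  simp only [bs, if_true, Pi.zero_apply] at h1
  exact one_ne hm h1

theorem gx_inj (hm : 2 ≤ m) {x y : X} : gx m x = gx m y ↔ x = y := by
  constructor
  · intro h
    exact bs_inj m hm (rf_inj m (congrArg Subtype.val h))
  · rintro rfl; rfl

theorem gx_sq (x : X) : gx m x * gx m x = 1 := by
  apply Subtype.ext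
  show rf m (bs m x) * rf m (bs m x) = 1
  rw [rf_rf, sub_self, tr_zero]

theorem gx_ne_one (hm : 2 ≤ m) (x : X) : gx m x ≠ 1 := by
  intro h
  have h1 : rf m (bs m x) = 1 := congrArg Subtype.val h
  rw [← tr_zero] at h1
  exact bs_ne_zero m hm x (tr_eq_rf m h1.symm).symm

theorem closure_gx : Subgroup.closure (Set.range (gx m : X → Dg m X)) = ⊤ := by
  have h : Subgroup.closure ((Subtype.val : Dg m X → _) ⁻¹'
      (Set.range fun x : X => rf m (bs m x))) = ⊤ :=
    Subgroup.closure_closure_coe_preimage (k := Set.range fun x : X => rf m (bs m x))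
  have h2 : Set.range (gx m : X → Dg m X) = (Subtype.val : Dg m X → _) ⁻¹'
      (Set.range fun x : X => rf m (bs m x)) := by
    ext g
    constructor
    · rintro ⟨x, rfl⟩
      exact ⟨x, rfl⟩
    · rintro ⟨x, hx⟩
      exact ⟨x, Subtype.ext hx⟩
  rw [h2]
  exact h

/-- Bijections of the colours induce automorphisms. -/
theorem exists_aut (σ : X ≃ X) : ∃ α : Dg m X ≃* Dg m X, ∀ x, α (gx m x) = gx m (σ x) := by
  let P : Equiv.Perm (X → ZMod m) := Equiv.arrowCongr σ (Equiv.refl _)
  let e : Equiv.Perm (X → ZMod m) ≃* Equiv.Perm (X → ZMod m) := MulAut.conj P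
  have he : ∀ x, e (rf m (bs m x)) = rf m (bs m (σ x)) := by
    intro x
    have h1 : P * rf m (bs m x) = rf m (bs m (σ x)) * P := by
      ext v y
      show bs m x (σ.symm y) - v (σ.symm y) = bs m (σ x) y - v (σ.symm y)
      congr 1
      simp only [bs]
      congr 1
      rw [Equiv.symm_apply_eq]
    show P * rf m (bs m x) * P⁻¹ = _
    rw [h1, mul_assoc, mul_inv_cancel, mul_one]
  have hmap : (Dg m X).map (e : Equiv.Perm (X → ZMod m) →* Equiv.Perm (X → ZMod m)) = Dg m X := by
    unfold Dg
    rw [MonoidHom.map_closure]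
    congr 1
    ext g
    constructor
    · rintro ⟨_, ⟨x, rfl⟩, rfl⟩
      exact ⟨σ x, (he x).symm⟩
    · rintro ⟨x, rfl⟩
      refine ⟨_, ⟨σ.symm x, rfl⟩, ?_⟩
      have := he (σ.symm x)
      rw [Equiv.apply_symm_apply] at this
      exact this
  refine ⟨(e.subgroupMap (Dg m X)).trans (MulEquiv.subgroupCongr hmap), fun x => ?_⟩
  apply Subtype.ext
  exact he x

/-- Two different generators generate a group of order `2 m`. -/
theorem card_dihedral (hm : 2 ≤ m) {x y : X} (hxy : x ≠ y) :
    Nat.card (Subgroup.closure {gx m x, gx m y}) = 2 * m := by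
  have : NeZero m := ⟨by omega⟩
  -- pass to permutations
  have e1 : Nat.card (Subgroup.closure {gx m x, gx m y}) =
      Nat.card (Subgroup.closure {rf m (bs m x), rf m (bs m y)}) := by
    have h1 : (Subgroup.closure {gx m x, gx m y}).map (Dg m X).subtype =
        Subgroup.closure {rf m (bs m x), rf m (bs m y)} := by
      rw [MonoidHom.map_closure, Set.image_pair]
      rfl
    rw [← h1]
    exact Nat.card_congr ((Subgroup.closure {gx m x, gx m y}).equivMapOfInjective
      (Dg m X).subtype (Dg m X).subtype_injective).toEquiv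
  rw [e1]
  set d : X → ZMod m := bs m x - bs m y with hd
  let ψ : Bool × ZMod m → Equiv.Perm (X → ZMod m) := fun p =>
    if p.1 then rf m (bs m x + p.2 • d) else tr m (p.2 • d)
  have hdx : d x = 1 := by
    rw [hd]; simp only [Pi.sub_apply, bs, if_true]; rw [if_neg hxy, sub_zero]
  have hdy : d y = -1 := by
    rw [hd]; simp only [Pi.sub_apply, bs, if_true]; rw [if_neg (Ne.symm hxy), zero_sub]
  have hbx : bs m x x = 1 := by simp only [bs, if_true]
  have hby : bs m x y = 0 := by simp only [bs]; rw [if_neg (Ne.symm hxy)]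
  have hψ : Function.Injective ψ := by
    rintro ⟨b, i⟩ ⟨c, j⟩ h
    have key : ∀ i j : ZMod m, i • d = j • d → i = j := by
      intro i j hij
      have := congrFun hij x
      simpa [hdx] using this
    have key2 : ∀ i j : ZMod m, i • d = bs m x + j • d → False := by
      intro i j hij
      have h1 := congrFun hij x
      have h2 := congrFun hij y
      simp only [Pi.smul_apply, Pi.add_apply, smul_eq_mul, hdx, hdy, hbx, hby] at h1 h2
      apply one_ne hm
      linear_combination -h1 - h2
    cases b <;> cases c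
    · have h1 : tr m (i • d) = tr m (j • d) := h
      rw [key i j (tr_inj m h1)]
    · have h1 : tr m (i • d) = rf m (bs m x + j • d) := h
      exact (key2 i j (tr_eq_rf m h1)).elim
    · have h1 : rf m (bs m x + i • d) = tr m (j • d) := h
      exact (key2 j i (tr_eq_rf m h1.symm)).elim
    · have h1 : rf m (bs m x + i • d) = rf m (bs m x + j • d) := h
      rw [key i j (add_left_cancel (rf_inj m h1))]
  let H : Subgroup (Equiv.Perm (X → ZMod m)) :=
    { carrier := Set.range ψ
      one_mem' := ⟨(false, 0), by show tr m ((0 : ZMod m) • d) = 1; rw [zero_smul, tr_zero]⟩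
      mul_mem' := by
        rintro _ _ ⟨⟨b, i⟩, rfl⟩ ⟨⟨c, j⟩, rfl⟩
        cases b <;> cases c
        · exact ⟨(false, i + j), by
            show tr m ((i + j) • d) = tr m (i • d) * tr m (j • d)
            rw [tr_tr, add_smul]⟩
        · exact ⟨(true, i + j), by
            show rf m (bs m x + (i + j) • d) = tr m (i • d) * rf m (bs m x + j • d)
            rw [tr_rf, add_smul]
            congr 1
            abel⟩
        · exact ⟨(true, i - j), by
            show rf m (bs m x + (i - j) • d) = rf m (bs m x + i • d) * tr m (j • d)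
            rw [rf_tr, sub_smul]
            congr 1
            abel⟩
        · exact ⟨(false, i - j), by
            show tr m ((i - j) • d) = rf m (bs m x + i • d) * rf m (bs m x + j • d)
            rw [rf_rf, sub_smul]
            congr 1
            abel⟩
      inv_mem' := by
        rintro _ ⟨⟨b, i⟩, rfl⟩
        cases b
        · refine ⟨(false, -i), ?_⟩
          show tr m ((-i) • d) = (tr m (i • d))⁻¹
          rw [eq_inv_iff_mul_eq_one, tr_tr, neg_smul, neg_add_cancel, tr_zero]
        · refine ⟨(true, i), ?_⟩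
          show rf m (bs m x + i • d) = (rf m (bs m x + i • d))⁻¹
          rw [eq_inv_iff_mul_eq_one, rf_rf, sub_self, tr_zero] }
  have hH : Subgroup.closure {rf m (bs m x), rf m (bs m y)} = H := by
    apply le_antisymm
    · rw [Subgroup.closure_le]
      rintro _ (rfl | rfl)
      · exact ⟨(true, 0), by
          show rf m (bs m x + (0 : ZMod m) • d) = rf m (bs m x)
          rw [zero_smul, add_zero]⟩
      · exact ⟨(true, -1), by
          show rf m (bs m x + (-1 : ZMod m) • d) = rf m (bs m y)
          congr 1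
          rw [neg_smul, one_smul, hd]
          abel⟩
    · have hx : rf m (bs m x) ∈ Subgroup.closure {rf m (bs m x), rf m (bs m y)} :=
        Subgroup.subset_closure (Or.inl rfl)
      have hy : rf m (bs m y) ∈ Subgroup.closure {rf m (bs m x), rf m (bs m y)} :=
        Subgroup.subset_closure (Or.inr rfl)
      have ht : ∀ i : ZMod m, tr m (i • d) ∈
          Subgroup.closure {rf m (bs m x), rf m (bs m y)} := by
        intro i
        have h1 : tr m d ∈ Subgroup.closure {rf m (bs m x), rf m (bs m y)} := by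
          rw [hd, ← rf_rf]
          exact mul_mem hx hy
        have h2 : i • d = i.val • d := by
          conv_lhs => rw [← ZMod.natCast_zmod_val i]
          exact Nat.cast_smul_eq_nsmul (ZMod m) i.val d
        rw [h2, ← tr_pow]
        exact pow_mem h1 _
      rintro _ ⟨⟨b, i⟩, rfl⟩
      cases b
      · exact ht i
      · show rf m (bs m x + i • d) ∈ _
        rw [add_comm, ← tr_rf]
        exact mul_mem (ht i) hx
  rw [hH]
  have h3 : Nat.card H = Nat.card (Bool × ZMod m) :=
    (Nat.card_congr (Equiv.ofInjective ψ hψ)).symm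
  rw [h3, Nat.card_prod, Nat.card_zmod]
  simp

end grp

/-! ### The polytopes -/

section poly

variable {K : Type} [PartialOrder K] {rk : K → ℤ} {n : ℤ} (r : Setoid (Vert rk)) (m : ℕ)

open Classical in
/-- The involution attached to a vertex. -/
noncomputable def sm (v : K) : Dg m (Quotient r) :=
  if h : rk v = 0 then gx m (Quotient.mk r ⟨v, h⟩) else 1

omit [PartialOrder K] in
theorem sm_vert {v : K} (hv : rk v = 0) : sm r m v = gx m (Quotient.mk r ⟨v, hv⟩) := by
  rw [sm, dif_pos hv]

omit [PartialOrder K] in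
theorem sm_eq_iff (hm : 2 ≤ m) {v v' : K} (hv : rk v = 0) (hv' : rk v' = 0) :
    sm r m v = sm r m v' ↔ r ⟨v, hv⟩ ⟨v', hv'⟩ := by
  rw [sm_vert r m hv, sm_vert r m hv', gx_inj m hm]
  exact Quotient.eq

theorem sm_good (hm : 2 ≤ m) (hedge : ∀ (E a b : K) (ha : rk a = 0) (hb : rk b = 0), rk E = 1 →
    a ≤ E → b ≤ E → r ⟨a, ha⟩ ⟨b, hb⟩ → a = b) : Good rk (sm r m) where
  inv := by
    intro v hv
    rw [sm_vert r m hv, gx_sq]
  ne_one := by
    intro v hv
    rw [sm_vert r m hv]
    exact gx_ne_one m hm _
  gen := by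
    rw [← closure_gx]
    congr 1
    ext g
    constructor
    · rintro ⟨v, hv, rfl⟩
      exact ⟨Quotient.mk r ⟨v, hv⟩, (sm_vert r m hv).symm⟩
    · rintro ⟨x, rfl⟩
      induction x using Quotient.inductionOn with
      | h v => exact ⟨v.1, v.2, sm_vert r m v.2⟩
  edge := by
    intro E a b hE ha hb ha0 hb0 hab
    rw [sm_eq_iff r m hm ha0 hb0] at hab
    exact hedge E a b ha0 hb0 hE ha hb hab

theorem sm_lift (hm : 2 ≤ m) (h : IsPolytope n rk) (g : K ≃o K)
    (hg : ∀ v v', rk v = 0 → rk v' = 0 → (sm r m v = sm r m v' ↔ sm r m (g v) = sm r m (g v'))) :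
    ∃ α : Dg m (Quotient r) ≃* Dg m (Quotient r), ∀ v, rk v = 0 → α (sm r m v) = sm r m (g v) := by
  let e : Vert rk ≃ Vert rk := g.toEquiv.subtypeEquiv (fun v => by
    change rk v = 0 ↔ rk (g v) = 0
    rw [h.rk_map])
  let σ : Quotient r ≃ Quotient r := Quotient.congr e (by
    intro a b
    have h1 := hg a.1 b.1 a.2 b.2
    rw [sm_eq_iff r m hm a.2 b.2,
      sm_eq_iff r m hm (by rw [h.rk_map, a.2]) (by rw [h.rk_map, b.2])] at h1
    exact h1)
  obtain ⟨α, hα⟩ := exists_aut m σ
  refine ⟨α, ?_⟩
  intro v hv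
  have hv' : rk (g v) = 0 := by rw [h.rk_map, hv]
  rw [sm_vert r m hv, sm_vert r m hv', hα]
  rfl

theorem orbits_sm (hm : 2 ≤ m) (h : IsPolytope n rk)
    (hedge : ∀ (E a b : K) (ha : rk a = 0) (hb : rk b = 0),
    rk E = 1 → a ≤ E → b ≤ E → r ⟨a, ha⟩ ⟨b, hb⟩ → a = b) :
    flagOrbits (Pow rk (sm r m)) = Nat.card (Quot (Rel rk (sm r m))) :=
  orbits_pow (sm r m) h (sm_good r m hm hedge) (sm_lift r m hm h)

theorem finite_powm [Finite K] (hm : 2 ≤ m) : Finite (Pow rk (sm r m)) := by
  have : NeZero m := ⟨by omega⟩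
  have h1 : Finite (Quotient r → ZMod m) := inferInstance
  have h2 : Finite (Dg m (Quotient r)) := inferInstance
  have h3 : Finite (Cell rk (sm r m)) :=
    inferInstanceAs (Finite {X : K × Set (Dg m (Quotient r)) //
      ∃ w, X.2 = cos rk (sm r m) X.1 w})
  infer_instance

theorem card_le [Finite K] (hm : 2 ≤ m) : Nat.card K ≤ Nat.card (Pow rk (sm r m)) := by
  have := finite_powm (rk := rk) r m hm
  refine Nat.card_le_card_of_injective
    (fun F => ((cell rk (sm r m) F 1 : Cell rk (sm r m)) : Pow rk (sm r m))) ?_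
  intro F G hFG
  rw [WithBot.coe_inj, cell_eq] at hFG
  exact hFG.1

/-- The faces of rank two are `2 m`-gons. -/
theorem pow_twoFaces (hm : 2 ≤ m) (h : IsPolytope n rk)
    (hedge : ∀ (E a b : K) (ha : rk a = 0) (hb : rk b = 0),
    rk E = 1 → a ≤ E → b ≤ E → r ⟨a, ha⟩ ⟨b, hb⟩ → a = b) :
    TwoFaces (rkP rk (sm r m)) (2 * m) := by
  intro F
  refine pow_cases rk (sm r m) (p := fun F => rkP rk (sm r m) F = 2 →
    {v | v ≤ F ∧ rkP rk (sm r m) v = 0}.ncard = 2 * m) ?_ ?_ F
  · intro h0
    exfalso
    have : (-1 : ℤ) = 2 := h0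
    omega
  · intro E w hE
    have hE1 : rk E = 1 := by
      have : rk E + 1 = 2 := hE
      omega
    obtain ⟨B, hB, hBle⟩ := h.least
    let φ : par rk (sm r m) E → Pow rk (sm r m) := fun p =>
      ((cell rk (sm r m) B (w * (p : Dg m (Quotient r))⁻¹) : Cell rk (sm r m)) :
        Pow rk (sm r m))
    have hφ : Function.Injective φ := by
      intro p p' hpp
      have h1 := (WithBot.coe_inj.1 hpp)
      rw [cell_eq] at h1
      have h2 := h1.2
      rw [par_bot (sm r m) h hB, Subgroup.mem_bot] at h2
      apply Subtype.ext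
      have h3 : (w * (p : Dg m (Quotient r))⁻¹)⁻¹ * (w * (p' : Dg m (Quotient r))⁻¹) =
          (p : Dg m (Quotient r)) * (p' : Dg m (Quotient r))⁻¹ := by group
      rw [h3] at h2
      exact mul_inv_eq_one.1 h2
    have hset : {v | v ≤ ((cell rk (sm r m) E w : Cell rk (sm r m)) : Pow rk (sm r m)) ∧
        rkP rk (sm r m) v = 0} = φ '' Set.univ := by
      ext V
      constructor
      · refine pow_cases rk (sm r m) (p := fun V => V ∈ {v | v ≤ ((cell rk (sm r m) E w :
          Cell rk (sm r m)) : Pow rk (sm r m)) ∧ rkP rk (sm r m) v = 0} → V ∈ φ '' Set.univ)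
          ?_ ?_ V
        · rintro ⟨-, h0⟩
          exfalso
          have : (-1 : ℤ) = 0 := h0
          omega
        · rintro G u ⟨hle, h0⟩
          have hG : rk G = -1 := by
            have : rk G + 1 = 0 := h0
            omega
          have hGB : B = G := h.eq_of_le (hBle G) (by rw [hB, hG])
          subst hGB
          rw [WithBot.coe_le_coe, cell_le] at hle
          refine ⟨⟨u⁻¹ * w, hle.2⟩, Set.mem_univ _, ?_⟩
          simp only [φ]
          congr 2
          group
      · rintro ⟨p, -, rfl⟩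
        refine ⟨?_, ?_⟩
        · show ((cell rk (sm r m) B (w * (p : Dg m (Quotient r))⁻¹) : Cell rk (sm r m)) :
            Pow rk (sm r m)) ≤ _
          rw [WithBot.coe_le_coe, cell_le]
          refine ⟨hBle E, ?_⟩
          have h3 : (w * (p : Dg m (Quotient r))⁻¹)⁻¹ * w = p := by group
          rw [h3]
          exact p.2
        · show rk B + 1 = 0
          omega
    rw [hset, Set.ncard_image_of_injective _ hφ, Set.ncard_univ]
    -- the two vertices of the edge
    have hBE : B < E := lt_of_le_of_ne (hBle E) (by rintro rfl; omega)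
    have hd := h.diamond B E hBE (by omega)
    obtain ⟨a, b, hab, hset2⟩ := Set.ncard_eq_two.1 hd
    have hv : {v | v ≤ E ∧ rk v = 0} = {a, b} := by
      rw [← hset2]
      ext v
      constructor
      · rintro ⟨h1, h2⟩
        exact ⟨lt_of_le_of_ne (hBle v) (by rintro rfl; omega),
          lt_of_le_of_ne h1 (by rintro rfl; omega)⟩
      · rintro ⟨h1, h2⟩
        have h3 := h.strictMono h1
        have h4 := h.strictMono h2
        exact ⟨h2.le, by omega⟩
    have ha : a ≤ E ∧ rk a = 0 := by
      have : a ∈ {v | v ≤ E ∧ rk v = 0} := by rw [hv]; exact Or.inl rfl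
      exact this
    have hb : b ≤ E ∧ rk b = 0 := by
      have : b ∈ {v | v ≤ E ∧ rk v = 0} := by rw [hv]; exact Or.inr rfl
      exact this
    have hpar : par rk (sm r m) E = Subgroup.closure
        {gx m (Quotient.mk r ⟨a, ha.2⟩), gx m (Quotient.mk r ⟨b, hb.2⟩)} := by
      rw [par, hv, Set.image_pair, sm_vert r m ha.2, sm_vert r m hb.2]
    rw [hpar]
    apply card_dihedral m hm
    intro h1
    exact hab (hedge E a b ha.2 hb.2 hE1 ha.1 hb.1 (Quotient.exact h1))

/-- The rank can be raised without changing the number of orbits. -/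
theorem exists_stepm [Finite K] (hm : 2 ≤ m) (h : IsPolytope n rk) (hd : NoDigon rk) :
    ∃ (P : Type) (_ : PartialOrder P) (rk' : P → ℤ), Finite P ∧ Nat.card K ≤ Nat.card P ∧
      IsPolytope (n + 1) rk' ∧ flagOrbits P = flagOrbits K ∧ NoDigon rk' ∧
      TwoFaces rk' (2 * m) := by
  have hedge : ∀ (E a b : K) (ha : rk a = 0) (hb : rk b = 0), rk E = 1 → a ≤ E →
      b ≤ E → (⊥ : Setoid (Vert rk)) ⟨a, ha⟩ ⟨b, hb⟩ → a = b := by
    intro E a b ha hb _ _ _ hr
    have : (⟨a, ha⟩ : Vert rk) = ⟨b, hb⟩ := hr
    exact congrArg Subtype.val this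
  have hgood := sm_good (⊥ : Setoid (Vert rk)) m hm hedge
  refine ⟨Pow rk (sm (⊥ : Setoid (Vert rk)) m), inferInstance,
    rkP rk (sm (⊥ : Setoid (Vert rk)) m), finite_powm _ m hm, card_le _ m hm,
    pow_isPolytope _ h hgood, ?_, pow_noDigon _ h hgood hd, pow_twoFaces _ m hm h hedge⟩
  rw [orbits_sm (⊥ : Setoid (Vert rk)) m hm h hedge]
  have : Rel rk (sm (⊥ : Setoid (Vert rk)) m) = AutRel K := by
    funext Φ Ψ
    apply propext
    constructor
    · rintro ⟨g, -, hg⟩
      exact ⟨g, hg⟩
    · rintro ⟨g, hg⟩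
      refine ⟨g, ?_, hg⟩
      intro v v' hv hv'
      rw [sm_eq_iff _ m hm hv hv',
        sm_eq_iff _ m hm (by rw [h.rk_map, hv]) (by rw [h.rk_map, hv'])]
      constructor
      · intro h1
        have h2 : (⟨v, hv⟩ : Vert rk) = ⟨v', hv'⟩ := h1
        have h3 : v = v' := congrArg Subtype.val h2
        subst h3
        exact (⊥ : Setoid (Vert rk)).refl' _
      · intro h1
        have h2 : (⟨g v, by rw [h.rk_map, hv]⟩ : Vert rk) = ⟨g v', by rw [h.rk_map, hv']⟩ := h1
        have h3 : v = v' := g.injective (congrArg Subtype.val h2)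
        subst h3
        exact (⊥ : Setoid (Vert rk)).refl' _
  rw [this]
  rfl

end poly

/-! ### Coloured polygons -/

section polygon

open Pg

variable {q : ℕ}

/-- The colouring of the vertices of the `q`-gon that identifies the vertices `i` with
`l i = 0`. -/
def colm (l q : ℕ) : Setoid (Vert (Pg.rk (q := q))) where
  r v v' := v = v' ∨ ((l : ZMod q) * idx v.1 = 0 ∧ (l : ZMod q) * idx v'.1 = 0)
  iseqv := {
    refl := fun v => Or.inl rfl
    symm := by
      rintro v v' (h | h)
      · exact Or.inl h.symm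
      · exact Or.inr ⟨h.2, h.1⟩
    trans := by
      rintro v v' v'' (rfl | h) (rfl | h')
      · exact Or.inl rfl
      · exact Or.inr h'
      · exact Or.inr h
      · exact Or.inr ⟨h.1, h'.2⟩ }

theorem colm_iff {l : ℕ} {i j : ZMod q} :
    (colm l q) ⟨vert i, rfl⟩ ⟨vert j, rfl⟩ ↔
      i = j ∨ ((l : ZMod q) * i = 0 ∧ (l : ZMod q) * j = 0) := by
  constructor
  · rintro (h | h)
    · left
      have h1 : (vert i : Pg q) = vert j := congrArg Subtype.val h
      simpa using h1
    · right; exact h
  · rintro (h | h)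
    · subst h; exact Or.inl rfl
    · exact Or.inr h

variable {W : Type} [Group W] {s : Pg q → W} {l : ℕ}
  (hs : ∀ i j : ZMod q, s (vert i) = s (vert j) ↔
    i = j ∨ ((l : ZMod q) * i = 0 ∧ (l : ZMod q) * j = 0))

include hs in
theorem rel_rotm {t : ZMod q} (ht : (l : ZMod q) * t = 0) (i : ZMod q) (b : Bool) :
    Rel Pg.rk s (fl i b) (fl (t + i) b) := by
  refine ⟨rot t, ?_, map_rot t i b⟩
  intro v v' hv hv'
  obtain ⟨a, rfl⟩ := vert_of_rk hv
  obtain ⟨c, rfl⟩ := vert_of_rk hv'
  change _ ↔ s (vert (t + a)) = s (vert (t + c))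
  rw [hs, hs]
  have h1 : ∀ x : ZMod q, (l : ZMod q) * (t + x) = (l : ZMod q) * x := by
    intro x; linear_combination ht
  rw [h1, h1, add_right_inj]

include hs in
theorem rel_reflm {t : ZMod q} (ht : (l : ZMod q) * t = 0) (i : ZMod q) (b : Bool) :
    Rel Pg.rk s (fl i b) (fl (t - i) (!b)) := by
  refine ⟨Pg.refl t, ?_, map_refl t i b⟩
  intro v v' hv hv'
  obtain ⟨a, rfl⟩ := vert_of_rk hv
  obtain ⟨c, rfl⟩ := vert_of_rk hv'
  change _ ↔ s (vert (t - a)) = s (vert (t - c))
  rw [hs, hs]
  have h1 : ∀ x : ZMod q, (l : ZMod q) * (t - x) = 0 ↔ (l : ZMod q) * x = 0 := by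
    intro x
    constructor
    · intro h; linear_combination ht - h
    · intro h; linear_combination ht - h
  rw [h1, h1, sub_right_inj]

end polygon

section count

open Pg

variable {k l : ℕ} {W : Type} [Group W] {s : Pg (k * l) → W}
  (hs : ∀ i j : ZMod (k * l), s (vert i) = s (vert j) ↔
    i = j ∨ ((l : ZMod (k * l)) * i = 0 ∧ (l : ZMod (k * l)) * j = 0))

include hs in
theorem of_relm (hk : 2 ≤ k) (hl : 2 ≤ l) {i j : ZMod (k * l)} {b c : Bool}
    (h : Rel Pg.rk s (fl i b) (fl j c)) :
    ∃ t : ZMod (k * l), (l : ZMod (k * l)) * t = 0 ∧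
      ((j = t + i ∧ c = b) ∨ (j = t - i ∧ c = !b)) := by
  have hq : 3 ≤ k * l := by nlinarith
  have hkk : (l : ZMod (k * l)) * (k : ZMod (k * l)) = 0 := by
    have h1 : ((k * l : ℕ) : ZMod (k * l)) = 0 := ZMod.natCast_self _
    push_cast at h1
    linear_combination h1
  have hk0 : (k : ZMod (k * l)) ≠ 0 := by
    intro h1
    rw [ZMod.natCast_eq_zero_iff] at h1
    have := Nat.le_of_dvd (by omega) h1
    nlinarith
  obtain ⟨g, hg, hgm⟩ := h
  have h1 := hg (vert 0) (vert k) rfl rfl
  have h2 : s (vert 0) = s (vert k) := by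
    rw [hs]
    right
    exact ⟨by simp, hkk⟩
  have h3 := h1.1 h2
  have hv : g (vert i) ∈ fl j c := by
    rw [← hgm]
    exact mem_map g _ (by simp [mem_fl])
  have he : g (edge (eg i b)) ∈ fl j c := by
    rw [← hgm]
    exact mem_map g _ (by simp [mem_fl])
  rcases aut_form hq g with ⟨t, ht⟩ | ⟨t, ht⟩
  · rw [(ht 0).1, (ht k).1, hs] at h3
    rw [(ht i).1] at hv
    rw [(ht _).2] at he
    simp [mem_fl] at hv he
    refine ⟨t, ?_, Or.inl ⟨hv.symm, ?_⟩⟩
    · rcases h3 with h3 | h3
      · exfalso
        apply hk0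
        linear_combination -h3
      · simpa using h3.1
    · subst hv
      have h4 := ne_sub_one hq i
      cases b <;> cases c
      · rfl
      · simp only [eg, Bool.false_eq_true, if_false, if_true] at he
        exact absurd (add_left_cancel he).symm h4
      · simp only [eg, Bool.false_eq_true, if_false, if_true] at he
        exfalso
        apply h4
        linear_combination he
      · rfl
  · rw [(ht 0).1, (ht k).1, hs] at h3
    rw [(ht i).1] at hv
    rw [(ht _).2] at he
    simp [mem_fl] at hv he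
    refine ⟨t, ?_, Or.inr ⟨hv.symm, ?_⟩⟩
    · rcases h3 with h3 | h3
      · exfalso
        apply hk0
        linear_combination h3
      · simpa using h3.1
    · subst hv
      have h4 := ne_sub_one hq i
      cases b <;> cases c
      · simp only [eg, Bool.false_eq_true, if_false] at he
        exfalso
        apply h4
        linear_combination he
      · rfl
      · rfl
      · simp only [eg, if_true] at he
        exfalso
        apply h4
        linear_combination -he

include hs in
theorem orbits_colm (hk : 2 ≤ k) (hl : 2 ≤ l) :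
    Nat.card (Quot (Rel (Pg.rk (q := k * l)) s)) = k := by
  have hq : 3 ≤ k * l := by nlinarith
  have : NeZero (k * l) := ⟨by omega⟩
  have hp := isPolytope hq
  have hmod : ∀ i : ZMod (k * l), ∃ (m : Fin k) (t : ZMod (k * l)),
      (l : ZMod (k * l)) * t = 0 ∧ i = t + (m.val : ZMod (k * l)) := by
    intro i
    refine ⟨⟨i.val % k, Nat.mod_lt _ (by omega)⟩, ((k * (i.val / k) : ℕ) : ZMod (k * l)), ?_, ?_⟩
    · have h1 : ((k * l * (i.val / k) : ℕ) : ZMod (k * l)) = 0 := by
        rw [ZMod.natCast_eq_zero_iff]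
        exact dvd_mul_right _ _
      push_cast at h1 ⊢
      linear_combination h1
    · rw [← Nat.cast_add, Nat.div_add_mod, ZMod.natCast_zmod_val]
  have hbij : Function.Bijective (fun m : Fin k =>
      (Quot.mk _ (fl (m.val : ZMod (k * l)) true) :
        Quot (Rel (Pg.rk (q := k * l)) s))) := by
    constructor
    · intro m m' hmm
      simp only [Quot.eq, (rel_equivalence s hp).eqvGen_iff] at hmm
      obtain ⟨t, ht, h | h⟩ := of_relm hs hk hl hmm
      · have h1 : ((l * m'.val : ℕ) : ZMod (k * l)) = ((l * m.val : ℕ) : ZMod (k * l)) := by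
          push_cast
          linear_combination (l : ZMod (k * l)) * h.1 + ht
        have hm := m.2
        have hm' := m'.2
        rw [ZMod.natCast_eq_natCast_iff', Nat.mod_eq_of_lt (by nlinarith),
          Nat.mod_eq_of_lt (by nlinarith)] at h1
        apply Fin.ext
        exact (Nat.eq_of_mul_eq_mul_left (by omega) h1).symm
      · simp at h
    · rintro ⟨Φ⟩
      obtain ⟨i, b, rfl⟩ := exists_fl Φ
      cases b
      · obtain ⟨m, t, ht, hi⟩ := hmod (-i)
        refine ⟨m, ?_⟩
        apply Quot.sound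
        have h1 := rel_reflm hs (t := -t) (by linear_combination -ht)
          (m.val : ZMod (k * l)) true
        have h2 : -t - (m.val : ZMod (k * l)) = i := by linear_combination hi
        rw [h2] at h1
        exact h1
      · obtain ⟨m, t, ht, hi⟩ := hmod i
        refine ⟨m, ?_⟩
        apply Quot.sound
        have h1 := rel_rotm hs ht (m.val : ZMod (k * l)) true
        rw [← hi] at h1
        exact h1
  rw [← Nat.card_congr (Equiv.ofBijective _ hbij), Nat.card_fin]

end count

theorem le_card_pg {q : ℕ} (hq : 3 ≤ q) : q ≤ Nat.card (Pg q) := by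
  have := Pg.finite hq
  have : NeZero q := ⟨by omega⟩
  have h : Nat.card (ZMod q) ≤ Nat.card (Pg q) :=
    Nat.card_le_card_of_injective (fun i : ZMod q => Pg.vert i) (fun i j hij => by simpa using hij)
  rwa [Nat.card_zmod] at h

open Pg in
theorem exists_basem {k m : ℕ} (hk : 1 ≤ k) (hm : 2 ≤ m) (M : ℕ) :
    ∃ (P : Type) (_ : PartialOrder P) (rk' : P → ℤ), Finite P ∧ M ≤ Nat.card P ∧
      IsPolytope 3 rk' ∧ flagOrbits P = k ∧ NoDigon rk' ∧ TwoFaces rk' (2 * m) := by
  rcases hk.lt_or_eq with hk | hk
  · obtain ⟨l, hl, hlM⟩ : ∃ l : ℕ, 2 ≤ l ∧ M ≤ l := ⟨M + 2, by omega, by omega⟩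
    have hq : 3 ≤ k * l := by nlinarith
    have hp := isPolytope hq
    have hedge : ∀ (E a b : Pg (k * l)) (ha : Pg.rk a = 0) (hb : Pg.rk b = 0), Pg.rk E = 1 →
        a ≤ E → b ≤ E → (colm l (k * l)) ⟨a, ha⟩ ⟨b, hb⟩ → a = b := by
      intro E a b ha hb hE ha' hb' hab
      obtain ⟨i, rfl⟩ := vert_of_rk ha
      obtain ⟨j, rfl⟩ := vert_of_rk hb
      rw [colm_iff] at hab
      rcases E with _ | e | e | _ <;> simp [Pg.rk] at hE
      rw [vert_le_edge] at ha' hb'
      have h2 : (l : ZMod (k * l)) ≠ 0 := by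
        intro h2
        rw [ZMod.natCast_eq_zero_iff] at h2
        have := Nat.le_of_dvd (by omega) h2
        nlinarith
      rcases hab with hab | ⟨h3, h4⟩
      · rw [hab]
      · rcases ha' with rfl | rfl <;> rcases hb' with rfl | rfl
        · rfl
        · exfalso; apply h2; linear_combination h4 - h3
        · exfalso; apply h2; linear_combination h3 - h4
        · rfl
    have hgood := sm_good (colm l (k * l)) m hm hedge
    have hfin := Pg.finite hq
    have hs : ∀ i j : ZMod (k * l), sm (colm l (k * l)) m (vert i) =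
        sm (colm l (k * l)) m (vert j) ↔
        i = j ∨ ((l : ZMod (k * l)) * i = 0 ∧ (l : ZMod (k * l)) * j = 0) := by
      intro i j
      rw [sm_eq_iff (colm l (k * l)) m hm (v := vert i) (v' := vert j) rfl rfl, colm_iff]
    refine ⟨Pow Pg.rk (sm (colm l (k * l)) m), inferInstance,
      rkP Pg.rk (sm (colm l (k * l)) m), finite_powm _ m hm, ?_, pow_isPolytope _ hp hgood, ?_,
      pow_noDigon _ hp hgood (noDigon hq), pow_twoFaces _ m hm hp hedge⟩
    · refine le_trans ?_ (card_le (rk := Pg.rk) (colm l (k * l)) m hm)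
      refine le_trans ?_ (le_card_pg hq)
      nlinarith
    · rw [orbits_sm (colm l (k * l)) m hm hp hedge, orbits_colm hs hk hl]
  · subst hk
    have hq : 3 ≤ M + 3 := by omega
    have hfin := Pg.finite hq
    obtain ⟨P, iP, rk', h0, h1, h2, h3, h4, h5⟩ :=
      exists_stepm m hm (isPolytope hq) (noDigon hq)
    refine ⟨P, iP, rk', h0, ?_, h2, ?_, h4, h5⟩
    · exact le_trans (by omega) ((le_card_pg hq).trans h1)
    · rw [h3, orbits_one]

/-- **Theorem.**  For all `k ≥ 1`, `n ≥ 3` and `m ≥ 2` there are arbitrarily large finite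
`k`-orbit `n`-polytopes, none of whose sections of rank two is a digon, and all of whose faces of
rank two are `2 m`-gons. -/
theorem result : ∀ k : ℕ, 1 ≤ k → ∀ n : ℤ, 3 ≤ n → ∀ m : ℕ, 2 ≤ m → ∀ M : ℕ,
    ∃ (P : Type) (_ : PartialOrder P) (rk : P → ℤ),
      Finite P ∧ M ≤ Nat.card P ∧ IsPolytope n rk ∧ flagOrbits P = k ∧ NoDigon rk ∧
        TwoFaces rk (2 * m) := by
  intro k hk n hn m hm M
  have key : ∀ j : ℕ, ∃ (P : Type) (_ : PartialOrder P) (rk : P → ℤ),
      Finite P ∧ M ≤ Nat.card P ∧ IsPolytope (3 + j) rk ∧ flagOrbits P = k ∧ NoDigon rk ∧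
        TwoFaces rk (2 * m) := by
    intro j
    induction j with
    | zero => simpa using exists_basem hk hm M
    | succ j ih =>
      obtain ⟨P, iP, rk, h0, hM, h1, h2, h3, -⟩ := ih
      obtain ⟨P', iP', rk', h0', hM', h1', h2', h3', h4'⟩ := exists_stepm m hm h1 h3
      refine ⟨P', iP', rk', h0', hM.trans hM', ?_, by rw [h2', h2], h3', h4'⟩
      push_cast
      rw [← add_assoc]
      exact h1'
  obtain ⟨j, hj⟩ := Int.eq_ofNat_of_zero_le (show 0 ≤ n - 3 by omega)
  have : n = 3 + j := by omega
  rw [this]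
  exact key j

end Pool.Agent.Results.MP_53fdf7_co.PrescribedFaces
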